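import Pool.Agent.Y318.MH.Stm2
import Pool.Agent.H728R2.OS.S.COV
import Pool.Agent.Y318.LF.Lift
import Pool.Agent.H637R2.TD.Base

/-!
# Project MH: finite invariant sets with increasing quadratic forms are hyperbolic
-/

set_option autoImplicit false

open Set Filter Topology

namespace Pool.Agent.Y547.MH

open Pool.Agent.H728R2.OS Pool.Agent.Y318.LF Pool.Agent.Y318.MH Pool.Agent.H637R2.TD

variable {d : ℕ}

/-- the derivative depends on the point of the torus only -/
theorem fd_eq {F : (Fin d → ℝ) → (Fin d → ℝ)} (hF : ContDiff ℝ 1 F) {f : Torus d → Torus d}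
    (hl : IsLift toTorus F f) {z w : Fin d → ℝ} (h : toTorus z = toTorus w) :
    fderiv ℝ F z = fderiv ℝ F w :=
  fderiv_lift (isCov_toTorus d) hF.continuous hF.continuous f hl hl z w h

theorem comp_id {F G : (Fin d → ℝ) → (Fin d → ℝ)} (hF : ContDiff ℝ 1 F) (hG : ContDiff ℝ 1 G)
    (h : ∀ z, toTorus (G (F z)) = toTorus z) (z v : Fin d → ℝ) :
    fderiv ℝ G (F z) (fderiv ℝ F z v) = v := by
  have hc : Continuous fun w => G (F w) - w :=
    (hG.continuous.comp hF.continuous).sub continuous_id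
  have h1 : ∀ w, G (F w) - w = G (F 0) - 0 := fun w =>
    int_const hc (fun u => (tor_eq_iff _ _).1 (h u).symm) w 0
  have h2 : G ∘ F = fun w => w + (G (F 0) - 0) := by
    funext w
    rw [← h1 w]
    simp
  have h3 := fderiv_comp z (hG.differentiable one_ne_zero (F z))
    (hF.differentiable one_ne_zero z)
  rw [h2, fderiv_add_const] at h3
  have h4 := congrArg (fun L : (Fin d → ℝ) →L[ℝ] (Fin d → ℝ) => L v) h3
  simp only [ContinuousLinearMap.comp_apply, fderiv_fun_id,
    ContinuousLinearMap.id_apply] at h4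
  exact h4.symm

theorem cocy_eq {F : (Fin d → ℝ) → (Fin d → ℝ)} (hF : ContDiff ℝ 1 F) {f : Torus d → Torus d}
    (hl : IsLift toTorus F f) {A : Torus d → (Fin d → ℝ) →L[ℝ] (Fin d → ℝ)}
    (hA : ∀ z, A (toTorus z) = fderiv ℝ F z) : ∀ (m : ℕ) (z : Fin d → ℝ),
    cocy f A m (toTorus z) = fderiv ℝ (F^[m]) z := by
  intro m
  induction m with
  | zero =>
    intro z
    rw [Function.iterate_zero, fderiv_id]
    rfl
  | succ m ih =>
    intro z
    have h1 : cocy f A (m + 1) (toTorus z) = (cocy f A m (f (toTorus z))).comp (A (toTorus z)) := rfl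
    rw [h1, ← hl z, ih, hA, Function.iterate_succ,
      fderiv_comp z ((hF.differentiable one_ne_zero).iterate m (F z))
        (hF.differentiable one_ne_zero z)]

theorem hyp : S_HYP := by
  intro hlin d g F G hF hG hFl hGl S hS hgS B c hc hsym hnd hinc
  have hGF : ∀ z, toTorus (G (F z)) = toTorus z := by
    intro z
    rw [hGl, hFl, Homeomorph.symm_apply_apply]
  have hFG : ∀ z, toTorus (F (G z)) = toTorus z := by
    intro z
    rw [hFl, hGl, Homeomorph.apply_symm_apply]
  let A : Torus d → (Fin d → ℝ) ≃L[ℝ] (Fin d → ℝ) := fun x =>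
    ContinuousLinearEquiv.equivOfInverse (fderiv ℝ F (rep x)) (fderiv ℝ G (F (rep x)))
      (fun v => comp_id hF hG hGF (rep x) v) (fun v => by
        have h1 := comp_id hG hF hFG (F (rep x)) v
        rwa [fd_eq hF hFl (hGF (rep x))] at h1)
  have hA1 : ∀ z, (A (toTorus z) : (Fin d → ℝ) →L[ℝ] (Fin d → ℝ)) = fderiv ℝ F z := fun z =>
    fd_eq hF hFl (toTorus_rep _)
  have hA2 : ∀ z, ((A (g.toEquiv.symm (toTorus z))).symm : (Fin d → ℝ) →L[ℝ] (Fin d → ℝ)) =
      fderiv ℝ G z := fun z => by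
    refine fd_eq hG hGl ?_
    rw [hFl, toTorus_rep]
    exact g.apply_symm_apply _
  obtain ⟨P, c', μ, hc', hμ, hμ1, h1, h2, h3⟩ := hlin (Fin d → ℝ) (Torus d) g.toEquiv S hS hgS A B c
    hc hsym hnd (fun x hx v => by
      have h4 := hinc (rep x) (by rw [toTorus_rep]; exact hx) v
      rw [toTorus_rep] at h4
      exact h4)
  refine ⟨F, G, hF, hG, hFl, hGl, P, c', μ, hc', hμ, hμ1, hS.continuousOn _, h1, ?_, ?_⟩
  · intro z hz
    ext1 v
    have h4 := h2 (toTorus z) hz v
    have h5 : ∀ u, A (toTorus z) u = fderiv ℝ F z u := fun u =>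
      congrArg (fun L : (Fin d → ℝ) →L[ℝ] (Fin d → ℝ) => L u) (hA1 z)
    rw [h5, h5] at h4
    exact h4
  · intro m z hz v
    have h4 := h3 m (toTorus z) hz v
    have e1 : cocy g.toEquiv (fun y => (A y : (Fin d → ℝ) →L[ℝ] (Fin d → ℝ))) m (toTorus z) =
      fderiv ℝ (F^[m]) z := cocy_eq hF hFl hA1 m z
    have e2 : cocy g.toEquiv.symm
        (fun y => ((A (g.toEquiv.symm y)).symm : (Fin d → ℝ) →L[ℝ] (Fin d → ℝ))) m (toTorus z) =
      fderiv ℝ (G^[m]) z := cocy_eq hG hGl hA2 m z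
    rw [e1, e2] at h4
    exact h4

end Pool.Agent.Y547.MH
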